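import Mathlib
import Pool.Agent.Q300.Dow.Normal
import Pool.Agent.Q300.Dow.Lusin
import Pool.Agent.Q300.Dow.Ground

/-!
# A first-countable, locally countable Dowker space of size `ℵ₁` without a Lusin set

The answer to Q1 of `MP_cba831_lc` is negative: some forcing (defined in ZFC, over an arbitrary
ground model) forces that there is a first-countable, locally countable Dowker space of
cardinality `ℵ₁` and that there is no Lusin set.

The sentences `DowkerOn` and `LusinOn` of the forcing language are defined in
`Pool.Agent.Q300.Dow.Defs`; a sentence is represented by the set of the conditions which force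
it. The set `X` has cardinality `ℵ₁` in the ground model, and `DowkerOn P X` says in particular
that it stays uncountable, so it has cardinality `ℵ₁` in the extension; it says moreover that
there is a first-countable, locally countable Dowker topology on `X`. `LusinOn P X` says that
there is an injection of `X` into `2 ^ ω` such that the preimage of each nowhere dense closed set
is countable; as `X` has size `ℵ₁` and each Lusin set includes one of size `ℵ₁`, this says that
there is a Lusin set. The second part of the theorem justifies these choices: for the trivial
forcing the two sentences are equivalent to the topological statements.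

Proof. Let `W` be the set of the countable ordinals. The forcing is the product `Q × 𝔹(I)`: the
conditions of `Q` are initial segments (of countable length) of a ladder system; at each `α` the
system has a sequence `c k` which converges to `α` and finite sets `F k ⊆ (c k, c (k + 1)]`. The
space is `W × ω`; the `j`-th neighbourhood of `(α, n)` consists of this point and of the
`c k`-th neighbourhoods of the points `(b, i)`, `b ∈ F k`, `i < n`, for all `k ≥ j` in the `n`-th
set of a fixed partition of `ω`. These sets are clopen. `𝔹(I)` is the measure algebra (of the
ground model) which adds a large number of random reals. By a fusion argument, for any two names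
of unbounded closed sets `A`, `C` and any condition `(q, r)` there is `q' ≤ q` for which each
`F k` at some `α` meets both sets with probability `≥ 1 - 2 ^ (-k)` (below `r`); so `(q', r)`
forces that `(α, n)` belongs to `A ∩ C` for all large `n`. Hence the space is normal, and it is
not countably paracompact. Since `Q` is σ-closed, `W` stays uncountable. Finally, let `f` be a
name of a map from `W × ω` to `2 ^ ω`. Only few of the random reals occur in the (measurable
sets which represent the) values of `f` which are decided by the conditions of `Q`; if `d` is
another one, then by the Borel-Cantelli lemma each value of `f` belongs to the union of the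
nowhere dense sets of the points which differ from `d` on the `k`-th block of a partition of `ω`
for all `k ≥ m`; so `f` maps uncountably many points into one of them.
-/

set_option autoImplicit false

namespace Pool.Agent.Results.MP_cba831_lc.DowkerWithoutLusin

open Cardinal Pool.Agent.TH773.PSet Pool.Agent.Q300.Dow

theorem result :
    (∃ (P : Type) (_ : Preorder P) (X : Type), #X = ℵ₁ ∧ Nonempty P ∧
      ∀ p : P, p ∈ DowkerOn P X ∧ p ∈ fnot (LusinOn P X)) ∧
    ∀ X : Type, #X = ℵ₁ → ∀ p : Unit,
      (p ∈ DowkerOn Unit X ↔ ∃ τ : TopologicalSpace X, @FCLCDowker X τ) ∧
      (p ∈ LusinOn Unit X ↔ ∃ L : Set (ℕ → Bool), IsLusin L) := by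
  refine ⟨?_, fun X hX p => ⟨u_DowkerOn hX, u_LusinOn hX⟩⟩
  let W : Type := (ℵ₁ : Cardinal.{0}).ord.ToType
  have hW : #W = ℵ₁ := by simp [W]
  have hc : ∀ a : W, (Set.Iio a).Countable := fun a => by
    rw [← Cardinal.le_aleph0_iff_set_countable, ← Order.lt_succ_iff, succ_aleph0]
    exact Cardinal.mk_Iio_toType_ord_lt a
  have hc' : ∀ a : W, (Set.Iic a).Countable := fun a => by
    rw [← Set.Iio_insert]; exact (hc a).insert a
  have hb : Bddd W := by
    intro C hC
    by_contra hcon
    push Not at hcon
    refine not_countable_univ hW ?_
    have : (Set.univ : Set W) ⊆ ⋃ c ∈ C, Set.Iic c := by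
      intro d _
      obtain ⟨c, hc1, hc2⟩ := hcon d
      simp only [Set.mem_iUnion]
      exact ⟨c, hc1, hc2⟩
    exact (hC.biUnion fun c _ => hc' c).mono this
  have hWN : #(W × ℕ) = ℵ₁ := by
    rw [Cardinal.mk_prod, hW]
    simp [Cardinal.aleph0_le_aleph, Cardinal.mul_aleph0_eq]
  obtain ⟨w0, -⟩ := hb ∅ Set.countable_empty
  refine ⟨LQ W × Random (Set (LQ W × (W × ℕ) × ℕ)), inferInstance, W × ℕ, hWN, ?_, fun p =>
    ⟨dowkerOn hb hc' p, no_lusin hb p⟩⟩
  refine ⟨(⟨w0, fun _ => (fun _ => w0, fun _ => ∅)⟩, ⟨Set.univ, MeasurableSet.univ, ?_⟩)⟩
  rw [MeasureTheory.measure_univ]
  exact one_ne_zero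

end Pool.Agent.Results.MP_cba831_lc.DowkerWithoutLusin
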